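import Mathlib

/-!
# Counting solutions of `x + x' = s`, `a x² + b x'² = v` modulo a prime
-/

set_option autoImplicit false

namespace Pool.Agent.Ruzsa

open Finset

variable {p : ℕ} [hp : Fact p.Prime]

/-- number of solutions of `x + x' = s`, `a x² + b x'² = v` -/
def rho (a b s v : ZMod p) : ℕ :=
  ((Finset.univ : Finset (ZMod p × ZMod p)).filter
    (fun z => z.1 + z.2 = s ∧ a * z.1 ^ 2 + b * z.2 ^ 2 = v)).card

theorem rho_eq (h2 : p ≠ 2) {a b : ZMod p} (hab : a + b ≠ 0) (s v : ZMod p) :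
    (rho a b s v : ℤ) = quadraticChar (ZMod p) ((a + b) * v - a * b * s ^ 2) + 1 := by
  have hchar : ringChar (ZMod p) ≠ 2 := by rwa [ZMod.ringChar_zmod_n]
  rw [← quadraticChar_card_sqrts hchar]
  norm_cast
  unfold rho
  refine Finset.card_bij' (fun z _ => (a + b) * z.1 - b * s)
    (fun y _ => ((y + b * s) / (a + b), s - (y + b * s) / (a + b))) ?_ ?_ ?_ ?_
  · intro z hz
    simp only [Finset.mem_filter, Finset.mem_univ, true_and] at hz
    simp only [Set.mem_toFinset, Set.mem_ofPred_eq]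
    obtain ⟨h1, h3⟩ := hz
    rw [← h3, ← h1]
    ring
  · intro y hy
    simp only [Set.mem_toFinset, Set.mem_ofPred_eq] at hy
    simp only [Finset.mem_filter, Finset.mem_univ, true_and]
    refine ⟨by ring, ?_⟩
    field_simp
    linear_combination (a + b) * hy
  · intro z hz
    simp only [Finset.mem_filter, Finset.mem_univ, true_and] at hz
    obtain ⟨h1, h3⟩ := hz
    have : ((a + b) * z.1 - b * s + b * s) / (a + b) = z.1 := by
      field_simp
      ring
    rw [this, ← h1]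
    ext <;> simp
  · intro y hy
    simp only
    field_simp
    ring

theorem rho_le_two (h2 : p ≠ 2) {a b : ZMod p} (hab : a + b ≠ 0) (s v : ZMod p) :
    rho a b s v ≤ 2 := by
  have h := rho_eq h2 hab s v
  have h3 : quadraticChar (ZMod p) ((a + b) * v - a * b * s ^ 2) ≤ 1 := by
    by_cases h0 : (a + b) * v - a * b * s ^ 2 = 0
    · rw [h0]; simp
    · rcases quadraticChar_dichotomy h0 with h4 | h4 <;> rw [h4] <;> norm_num
  omega

theorem rho_comm (a b s v : ZMod p) : rho a b s v = rho b a s v := by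
  unfold rho
  refine Finset.card_bij' (fun z _ => (z.2, z.1)) (fun z _ => (z.2, z.1)) ?_ ?_ ?_ ?_
  · intro z hz
    simp only [Finset.mem_filter, Finset.mem_univ, true_and] at hz ⊢
    exact ⟨by rw [add_comm]; exact hz.1, by rw [add_comm]; exact hz.2⟩
  · intro z hz
    simp only [Finset.mem_filter, Finset.mem_univ, true_and] at hz ⊢
    exact ⟨by rw [add_comm]; exact hz.1, by rw [add_comm]; exact hz.2⟩
  · intro z _; rfl
  · intro z _; rfl

/-- the two forms have complementary discriminants -/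
theorem rho_compl (h2 : p ≠ 2) {ν : ZMod p} (hν : ¬ IsSquare ν) (h1 : 1 + ν ≠ 0) (s v : ZMod p) :
    rho 1 ν s v + rho (2 * ν / (1 + ν)) (2 * ν / (1 + ν)) s v = 2 := by
  have hchar : ringChar (ZMod p) ≠ 2 := by rwa [ZMod.ringChar_zmod_n]
  have h20 : (2 : ZMod p) ≠ 0 := Ring.two_ne_zero hchar
  have hν0 : ν ≠ 0 := by
    rintro rfl
    exact hν ⟨0, by simp⟩
  have hc : 2 * ν / (1 + ν) + 2 * ν / (1 + ν) ≠ 0 := by
    rw [← two_mul]
    exact mul_ne_zero h20 (div_ne_zero (mul_ne_zero h20 hν0) h1)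
  have e1 := rho_eq h2 h1 s v
  have e2 := rho_eq h2 hc s v
  have h3 : (2 * ν / (1 + ν) + 2 * ν / (1 + ν)) * v - 2 * ν / (1 + ν) * (2 * ν / (1 + ν)) * s ^ 2 =
      ν * (2 / (1 + ν)) ^ 2 * ((1 + ν) * v - 1 * ν * s ^ 2) := by
    field_simp
    ring
  have h4 : quadraticChar (ZMod p) ((2 / (1 + ν)) ^ 2) = 1 :=
    quadraticChar_sq_one' (div_ne_zero h20 h1)
  have h5 : quadraticChar (ZMod p) ν = -1 := by
    rwa [quadraticChar_neg_one_iff_not_isSquare]
  rw [h3, map_mul, map_mul, h4, h5] at e2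
  have : ((rho 1 ν s v + rho (2 * ν / (1 + ν)) (2 * ν / (1 + ν)) s v : ℕ) : ℤ) = 2 := by
    push_cast
    rw [e1, e2]
    ring
  exact_mod_cast this

/-- a suitable nonresidue -/
theorem exists_nu (h11 : 11 ≤ p) : ∃ ν : ZMod p, ¬ IsSquare ν ∧ 1 + ν ≠ 0 ∧ 1 + 3 * ν ≠ 0 ∧
    3 + ν ≠ 0 := by
  have h2 : p ≠ 2 := by omega
  have hchar : ringChar (ZMod p) ≠ 2 := by rwa [ZMod.ringChar_zmod_n]
  obtain ⟨a, ha⟩ := FiniteField.exists_nonsquare hchar
  have ha0 : a ≠ 0 := by
    rintro rfl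
    exact ha ⟨0, by simp⟩
  let f : Polynomial (ZMod p) := Polynomial.X * ((1 + Polynomial.C a * Polynomial.X ^ 2) *
    ((1 + Polynomial.C (3 * a) * Polynomial.X ^ 2) * (3 + Polynomial.C a * Polynomial.X ^ 2)))
  have hf : f ≠ 0 := by
    have h3 : (3 : ZMod p) ≠ 0 := by
      intro h
      have : ((3 : ℕ) : ZMod p) = 0 := by exact_mod_cast h
      rw [ZMod.natCast_eq_zero_iff] at this
      have := Nat.le_of_dvd (by norm_num) this
      omega
    intro h
    have h5 : ∀ c : ZMod p, (1 + Polynomial.C c * Polynomial.X ^ 2 : Polynomial (ZMod p)) ≠ 0 := by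
      intro c hc
      have := congrArg (Polynomial.eval 0) hc
      simp at this
    have h6 : ∀ c : ZMod p, (3 + Polynomial.C c * Polynomial.X ^ 2 : Polynomial (ZMod p)) ≠ 0 := by
      intro c hc
      have := congrArg (Polynomial.eval 0) hc
      simp at this
      exact h3 this
    rcases mul_eq_zero.1 h with h7 | h7
    · exact Polynomial.X_ne_zero h7
    · rcases mul_eq_zero.1 h7 with h8 | h8
      · exact h5 _ h8
      · rcases mul_eq_zero.1 h8 with h9 | h9
        · exact h5 _ h9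
        · exact h6 _ h9
  have hdeg : f.natDegree < p := by
    have : f.natDegree ≤ 7 := by
      show (Polynomial.X * ((1 + Polynomial.C a * Polynomial.X ^ 2) *
    ((1 + Polynomial.C (3 * a) * Polynomial.X ^ 2) *
      (3 + Polynomial.C a * Polynomial.X ^ 2)))).natDegree ≤ 7
      compute_degree
    omega
  obtain ⟨u, hu⟩ := Polynomial.exists_eval_ne_zero_of_natDegree_lt_card f hf (by
    simpa using hdeg)
  have hu' : u * ((1 + a * u ^ 2) * ((1 + 3 * a * u ^ 2) * (3 + a * u ^ 2))) ≠ 0 := by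
    simpa [f] using hu
  rw [mul_ne_zero_iff, mul_ne_zero_iff, mul_ne_zero_iff] at hu'
  obtain ⟨hu0, hu1, hu2, hu3⟩ := hu'
  refine ⟨a * u ^ 2, ?_, hu1, ?_, hu3⟩
  · rintro ⟨w, hw⟩
    apply ha
    refine ⟨w / u, ?_⟩
    field_simp
    rw [hw]
    ring
  · rw [← mul_assoc]
    exact hu2

end Pool.Agent.Ruzsa
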