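import Mathlib

/-!
# The windows and their finite checks
-/

set_option autoImplicit false

namespace Pool.Agent.Ruzsa

/-- the three windows (first coordinate: column, second coordinate: row) -/
def W : Fin 3 → Finset (ℕ × ℕ) := ![
  {(0, 0), (1, 0), (2, 0), (3, 0), (4, 1), (0, 9), (1, 9), (2, 9), (3, 9), (4, 9)},
  {(0, 11), (1, 11), (2, 11), (0, 12), (1, 12), (2, 12), (0, 14), (2, 14), (0, 16), (2, 16),
   (0, 18), (1, 18), (2, 18), (0, 19), (1, 19), (2, 19)},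
  {(0, 21), (0, 22), (0, 23), (0, 24), (0, 25), (0, 26), (0, 27), (0, 28), (0, 29)}]

/-- number of cell pairs with a given sum -/
def rr (k l : Fin 3) (t1 t2 : ℕ) : ℕ :=
  ((W k ×ˢ W l).filter (fun c => c.1.1 + c.2.1 = t1 ∧ c.1.2 + c.2.2 = t2)).card

/-- maximum over carries -/
def vv (k l : Fin 3) (t1 t2 : ℕ) : ℕ :=
  max (max (rr k l t1 t2) (rr k l (t1 - 1) t2)) (max (rr k l t1 (t2 - 1)) (rr k l (t1 - 1) (t2 - 1)))

/-- encoded windows -/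
def G : Fin 3 → ℕ := ![
  2 ^ (8 * (0 + 16 * 0)) + 2 ^ (8 * (1 + 16 * 0)) + 2 ^ (8 * (2 + 16 * 0)) +
    2 ^ (8 * (3 + 16 * 0)) + 2 ^ (8 * (4 + 16 * 1)) + 2 ^ (8 * (0 + 16 * 9)) +
    2 ^ (8 * (1 + 16 * 9)) + 2 ^ (8 * (2 + 16 * 9)) + 2 ^ (8 * (3 + 16 * 9)) +
    2 ^ (8 * (4 + 16 * 9)),
  2 ^ (8 * (0 + 16 * 11)) + 2 ^ (8 * (1 + 16 * 11)) + 2 ^ (8 * (2 + 16 * 11)) +
    2 ^ (8 * (0 + 16 * 12)) + 2 ^ (8 * (1 + 16 * 12)) + 2 ^ (8 * (2 + 16 * 12)) +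
    2 ^ (8 * (0 + 16 * 14)) + 2 ^ (8 * (2 + 16 * 14)) + 2 ^ (8 * (0 + 16 * 16)) +
    2 ^ (8 * (2 + 16 * 16)) + 2 ^ (8 * (0 + 16 * 18)) + 2 ^ (8 * (1 + 16 * 18)) +
    2 ^ (8 * (2 + 16 * 18)) + 2 ^ (8 * (0 + 16 * 19)) + 2 ^ (8 * (1 + 16 * 19)) +
    2 ^ (8 * (2 + 16 * 19)),
  2 ^ (8 * (0 + 16 * 21)) + 2 ^ (8 * (0 + 16 * 22)) + 2 ^ (8 * (0 + 16 * 23)) +
    2 ^ (8 * (0 + 16 * 24)) + 2 ^ (8 * (0 + 16 * 25)) + 2 ^ (8 * (0 + 16 * 26)) +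
    2 ^ (8 * (0 + 16 * 27)) + 2 ^ (8 * (0 + 16 * 28)) + 2 ^ (8 * (0 + 16 * 29))]

/-- looked-up number of cell pairs -/
def R (k l : Fin 3) (t1 t2 : ℕ) : ℕ := (G k * G l / 2 ^ (8 * (t1 + 16 * t2))) % 256

/-- intermediate count -/
def rb (k l : Fin 3) (t1 t2 : ℕ) : ℕ :=
  ((W k).filter (fun c => (Nat.ble c.1 t1 && Nat.ble c.2 t2 &&
    (G l).testBit (8 * ((t1 - c.1) + 16 * (t2 - c.2)))) = true)).card

set_option maxRecDepth 100000 in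
theorem mem_G : ∀ l : Fin 3, ∀ c ∈ W l, (G l).testBit (8 * (c.1 + 16 * c.2)) = true := by
  decide +kernel

theorem rr_le_rb (k l : Fin 3) (t1 t2 : ℕ) : rr k l t1 t2 ≤ rb k l t1 t2 := by
  unfold rr rb
  refine Finset.card_le_card_of_injOn (fun c => c.1) ?_ ?_
  · intro c hc
    simp only [Finset.coe_filter, Finset.mem_product, Set.mem_ofPred_eq] at hc
    obtain ⟨⟨h1, h2⟩, h3, h4⟩ := hc
    simp only [Finset.coe_filter, Set.mem_ofPred_eq, Bool.and_eq_true, Nat.ble_eq]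
    refine ⟨h1, ⟨by omega, by omega⟩, ?_⟩
    have h5 := mem_G l c.2 h2
    have h6 : t1 - c.1.1 = c.2.1 := by omega
    have h7 : t2 - c.1.2 = c.2.2 := by omega
    rw [h6, h7]
    exact h5
  · intro c hc c' hc' hcc
    simp only [Finset.coe_filter, Finset.mem_product, Set.mem_ofPred_eq] at hc hc'
    obtain ⟨-, h3, h4⟩ := hc
    obtain ⟨-, h5, h6⟩ := hc'
    have hcc' : c.1 = c'.1 := hcc
    rw [hcc'] at h3 h4
    refine Prod.ext hcc' (Prod.ext ?_ ?_) <;> omega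

set_option maxRecDepth 100000 in
theorem rb_le_R : ∀ k l : Fin 3, ∀ t2 < 64, ∀ t1 < 12, rb k l t1 t2 ≤ R k l t1 t2 := by
  decide +kernel

theorem rr_le_R (k l : Fin 3) {t1 t2 : ℕ} (h1 : t1 < 12) (h2 : t2 < 64) :
    rr k l t1 t2 ≤ R k l t1 t2 :=
  (rr_le_rb k l t1 t2).trans (rb_le_R k l t2 h2 t1 h1)

/-- looked-up maximum over carries -/
def vR (k l : Fin 3) (t1 t2 : ℕ) : ℕ :=
  max (max (R k l t1 t2) (R k l (t1 - 1) t2)) (max (R k l t1 (t2 - 1)) (R k l (t1 - 1) (t2 - 1)))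

theorem rr_le_vR (k l : Fin 3) {t1 t2 e1 e2 : ℕ} (h1 : t1 < 12) (h2 : t2 < 64) (he1 : e1 ≤ 1)
    (he2 : e2 ≤ 1) : rr k l (t1 - e1) (t2 - e2) ≤ vR k l t1 t2 := by
  refine (rr_le_R k l (by omega) (by omega)).trans ?_
  unfold vR
  interval_cases e1 <;> interval_cases e2 <;> simp

/-- the weight of a cell -/
def hh (t1 t2 : ℕ) : ℕ :=
  2 * vR 0 0 t1 t2 + 2 * vR 2 2 t1 t2 + 2 * vR 0 1 t1 t2 + 2 * vR 1 0 t1 t2 + 2 * vR 1 2 t1 t2 +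
    2 * vR 2 1 t1 t2 + max (2 * vR 0 2 t1 t2 + 2 * vR 2 0 t1 t2) (2 * vR 1 1 t1 t2)

/-- three consecutive cells -/
def FF (q b0 b1 b2 : ℕ) : ℕ := hh q b0 + hh (q + 4) b1 + hh (q + 8) b2

/-- maximal weight away from the row boundary -/
def f (b : ℕ) : ℕ := max (max (FF 0 b b b) (FF 1 b b b)) (max (FF 2 b b b) (FF 3 b b b))

/-- maximal weight at the row boundary -/
def fm (b : ℕ) : ℕ :=
  max (max (max (FF 0 b b (b - 1)) (FF 1 b b (b - 1))) (max (FF 2 b b (b - 1)) (FF 3 b b (b - 1))))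
    (max (max (FF 0 b (b - 1) (b - 1)) (FF 1 b (b - 1) (b - 1)))
      (max (FF 2 b (b - 1) (b - 1)) (FF 3 b (b - 1) (b - 1))))

theorem FF_le_f {q : ℕ} (hq : q < 4) (b : ℕ) : FF q b b b ≤ f b := by
  unfold f
  interval_cases q <;> simp

theorem FF_le_fm1 {q : ℕ} (hq : q < 4) (b : ℕ) : FF q b b (b - 1) ≤ fm b := by
  unfold fm
  interval_cases q <;> simp

theorem FF_le_fm2 {q : ℕ} (hq : q < 4) (b : ℕ) : FF q b (b - 1) (b - 1) ≤ fm b := by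
  unfold fm
  interval_cases q <;> simp

set_option maxRecDepth 100000 in
theorem final_check : ∀ b < 16,
    f b + f (b + 16) + f (b + 32) + f (b + 48) ≤ 80 ∧
    fm b + f (b + 15) + f (b + 31) + f (b + 47) ≤ 80 ∧
    f b + fm (b + 16) + f (b + 31) + f (b + 47) ≤ 80 ∧
    f b + f (b + 15) + f (b + 31) + f (b + 47) ≤ 80 ∧
    f b + f (b + 16) + fm (b + 32) + f (b + 47) ≤ 80 ∧
    f b + f (b + 16) + f (b + 31) + f (b + 47) ≤ 80 ∧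
    f b + f (b + 16) + f (b + 32) + fm (b + 48) ≤ 80 ∧
    f b + f (b + 16) + f (b + 32) + f (b + 47) ≤ 80 := by
  decide +kernel

set_option maxRecDepth 100000 in
/-- every cell of the covering region is full, for the pair of types `(0, 2)` -/
theorem full_02 : ∀ t1 < 4, ∀ t2 < 16, ∀ e1 < 2, ∀ e2 < 2, ∃ c ∈ W 0, ∃ c' ∈ W 2,
    c.1 + c'.1 + e1 = t1 + 1 ∧ c.2 + c'.2 + e2 = t2 + 23 := by
  decide +kernel

set_option maxRecDepth 100000 in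
/-- every cell of the covering region is full, for the pair of types `(1, 1)` -/
theorem full_11 : ∀ t1 < 4, ∀ t2 < 16, ∀ e1 < 2, ∀ e2 < 2, ∃ c ∈ W 1, ∃ c' ∈ W 1,
    c.1 + c'.1 + e1 = t1 + 1 ∧ c.2 + c'.2 + e2 = t2 + 23 := by
  decide +kernel

set_option maxRecDepth 100000 in
theorem W_bound : ∀ k : Fin 3, ∀ c ∈ W k, c.1 ≤ 4 ∧ c.2 ≤ 29 := by
  decide +kernel

end Pool.Agent.Ruzsa
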