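import Pool.Agent.Ruzsa.Defs
import Pool.Agent.Ruzsa.Quad
import Pool.Agent.Ruzsa.Win

/-!
# The set and the counting bound
-/

set_option autoImplicit false

namespace Pool.Agent.Ruzsa

open Finset

variable {p : ℕ} [hp : Fact p.Prime] (κ : Fin 3 → ZMod p)

/-- the elements before reduction modulo `m` -/
def el (k : Fin 3) (c : ℕ × ℕ) (x : ZMod p) : ℕ :=
  (x.val + c.1 * p) + 4 * p * ((κ k * x ^ 2).val + c.2 * p)

/-- the set -/
def AA (m : ℕ) : Finset (ZMod m) :=
  Finset.univ.biUnion (fun k : Fin 3 => (W k ×ˢ (Finset.univ : Finset (ZMod p))).image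
    (fun z => ((el κ k z.1 z.2 : ℕ) : ZMod m)))

/-- all index pairs of types `k`, `l` -/
def IP (p : ℕ) [Fact p.Prime] (k l : Fin 3) : Finset (((ℕ × ℕ) × ZMod p) × ((ℕ × ℕ) × ZMod p)) :=
  (W k ×ˢ (Finset.univ : Finset (ZMod p))) ×ˢ (W l ×ˢ (Finset.univ : Finset (ZMod p)))

/-- index pairs with given residue of the sum -/
def SS (m : ℕ) (k l : Fin 3) (n : ZMod m) :
    Finset (((ℕ × ℕ) × ZMod p) × ((ℕ × ℕ) × ZMod p)) :=
  (IP p k l).filter
    (fun u => ((el κ k u.1.1 u.1.2 + el κ l u.2.1 u.2.2 : ℕ) : ZMod m) = n)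

/-- index pairs with given sums of both coordinates -/
def TT (k l : Fin 3) (s v : ℕ) : Finset (((ℕ × ℕ) × ZMod p) × ((ℕ × ℕ) × ZMod p)) :=
  (IP p k l).filter
    (fun u => u.1.2.val + u.2.2.val + (u.1.1.1 + u.2.1.1) * p = s ∧
      (κ k * u.1.2 ^ 2).val + (κ l * u.2.2 ^ 2).val + (u.1.1.2 + u.2.1.2) * p = v)

theorem mem_AA {m : ℕ} {a : ZMod m} : a ∈ AA κ m ↔ ∃ k : Fin 3, ∃ c ∈ W k, ∃ x : ZMod p,
    ((el κ k c x : ℕ) : ZMod m) = a := by
  unfold AA
  simp only [Finset.mem_biUnion, Finset.mem_univ, true_and, Finset.mem_image, Finset.mem_product,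
    and_true, Prod.exists]
  constructor
  · rintro ⟨k, c1, c2, x, h, h'⟩
    exact ⟨k, c1, c2, h, x, h'⟩
  · rintro ⟨k, c1, c2, h, x, h'⟩
    exact ⟨k, c1, c2, x, h, h'⟩

theorem sig_le_SS {m : ℕ} (n : ZMod m) :
    sig (AA κ m) n ≤ ∑ k : Fin 3, ∑ l : Fin 3, (SS κ m k l n).card := by
  unfold sig
  have hsub : ((AA κ m ×ˢ AA κ m).filter (fun q => q.1 + q.2 = n)) ⊆
      Finset.univ.biUnion (fun k : Fin 3 => Finset.univ.biUnion (fun l : Fin 3 =>
        (SS κ m k l n).image (fun u => (((el κ k u.1.1 u.1.2 : ℕ) : ZMod m),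
          ((el κ l u.2.1 u.2.2 : ℕ) : ZMod m))))) := by
    intro q hq
    rw [Finset.mem_filter, Finset.mem_product, mem_AA, mem_AA] at hq
    obtain ⟨⟨⟨k, c, hc, x, hx⟩, ⟨l, c', hc', x', hx'⟩⟩, h⟩ := hq
    simp only [Finset.mem_biUnion, Finset.mem_univ, true_and, Finset.mem_image]
    refine ⟨k, l, ((c, x), (c', x')), ?_, ?_⟩
    · simp only [SS, IP, Finset.mem_filter, Finset.mem_product, Finset.mem_univ, and_true]
      refine ⟨⟨hc, hc'⟩, ?_⟩
      push_cast
      rw [hx, hx', h]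
    · exact Prod.ext hx hx'
  refine (Finset.card_le_card hsub).trans (Finset.card_biUnion_le.trans ?_)
  refine Finset.sum_le_sum fun k _ => Finset.card_biUnion_le.trans ?_
  exact Finset.sum_le_sum fun l _ => Finset.card_image_le

theorem TT_card (k l : Fin 3) {s v : ℕ} (hs : s / p < 12) (hv : v / p < 64) :
    (TT κ k l s v).card ≤ rho (κ k) (κ l) (s : ZMod p) (v : ZMod p) * vR k l (s / p) (v / p) := by
  have hp0 : 0 < p := hp.out.pos
  rw [mul_comm]
  unfold rho
  refine Finset.card_le_mul_card_image_of_maps_to (f := fun u => (u.1.2, u.2.2)) ?_ _ ?_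
  · intro u hu
    simp only [TT, IP, Finset.mem_filter, Finset.mem_product, Finset.mem_univ, and_true] at hu
    obtain ⟨-, h1, h2⟩ := hu
    simp only [Finset.mem_filter, Finset.mem_univ, true_and]
    constructor
    · rw [← h1]
      push_cast
      simp
    · rw [← h2]
      push_cast
      simp
  · intro z _
    set e1 := (z.1.val + z.2.val) / p with he1
    set e2 := ((κ k * z.1 ^ 2).val + (κ l * z.2 ^ 2).val) / p with he2
    have h1 : e1 ≤ 1 := by
      have ha := ZMod.val_lt z.1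
      have hb := ZMod.val_lt z.2
      have : e1 < 2 := by
        rw [he1, Nat.div_lt_iff_lt_mul hp0]
        omega
      omega
    have h2 : e2 ≤ 1 := by
      have ha := ZMod.val_lt (κ k * z.1 ^ 2)
      have hb := ZMod.val_lt (κ l * z.2 ^ 2)
      have : e2 < 2 := by
        rw [he2, Nat.div_lt_iff_lt_mul hp0]
        omega
      omega
    refine le_trans ?_ (rr_le_vR k l hs hv h1 h2)
    unfold rr
    refine Finset.card_le_card_of_injOn (fun u => (u.1.1, u.2.1)) ?_ ?_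
    · intro u hu
      simp only [TT, IP, Finset.coe_filter, Finset.mem_filter, Finset.mem_product, Finset.mem_univ,
        and_true, Set.mem_ofPred_eq] at hu
      obtain ⟨⟨⟨h3, h4⟩, h5, h6⟩, h7⟩ := hu
      have h8 : u.1.2 = z.1 := congrArg Prod.fst h7
      have h9 : u.2.2 = z.2 := congrArg Prod.snd h7
      rw [h8, h9] at h5 h6
      simp only [Finset.coe_filter, Finset.mem_product, Set.mem_ofPred_eq]
      refine ⟨⟨h3, h4⟩, ?_, ?_⟩
      · rw [← h5, Nat.add_mul_div_right _ _ hp0]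
        omega
      · rw [← h6, Nat.add_mul_div_right _ _ hp0]
        omega
    · intro u hu u' hu' huu
      simp only [Finset.coe_filter, Set.mem_ofPred_eq] at hu hu'
      have h3 : (u.1.2, u.2.2) = (u'.1.2, u'.2.2) := hu.2.trans hu'.2.symm
      have h4 : (u.1.1, u.2.1) = (u'.1.1, u'.2.1) := huu
      rw [Prod.mk.injEq] at h3 h4
      exact Prod.ext (Prod.ext h4.1 h3.1) (Prod.ext h4.2 h3.2)

/-- the hypothesis on the coefficients -/
structure Good : Prop where
  le_two : ∀ (k l : Fin 3) (s v : ZMod p), rho (κ k) (κ l) s v ≤ 2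
  compl : ∀ s v : ZMod p, rho (κ 0) (κ 2) s v + rho (κ 1) (κ 1) s v = 2

theorem sum_TT (hκ : Good κ) {s v : ℕ} (hs : s / p < 12) (hv : v / p < 64) :
    ∑ k : Fin 3, ∑ l : Fin 3, (TT κ k l s v).card ≤ hh (s / p) (v / p) := by
  have h := fun k l : Fin 3 => TT_card κ k l hs hv
  have h2 : ∀ k l : Fin 3, (TT κ k l s v).card ≤ 2 * vR k l (s / p) (v / p) := by
    intro k l
    refine (h k l).trans ?_
    exact Nat.mul_le_mul_right _ (hκ.le_two k l _ _)
  have hc := hκ.compl (s : ZMod p) (v : ZMod p)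
  have h02 := h 0 2
  have h20 := h 2 0
  have h11 := h 1 1
  rw [rho_comm] at h20
  have h00 := h2 0 0
  have h22 := h2 2 2
  have h01 := h2 0 1
  have h10 := h2 1 0
  have h12 := h2 1 2
  have h21 := h2 2 1
  have key : (TT κ 0 2 s v).card + (TT κ 2 0 s v).card + (TT κ 1 1 s v).card ≤
      max (2 * vR 0 2 (s / p) (v / p) + 2 * vR 2 0 (s / p) (v / p)) (2 * vR 1 1 (s / p) (v / p)) := by
    set a := rho (κ 0) (κ 2) (s : ZMod p) (v : ZMod p)
    set b := rho (κ 1) (κ 1) (s : ZMod p) (v : ZMod p)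
    have ha : a ≤ 2 := by omega
    have hb : b = 2 - a := by omega
    rw [hb] at h11
    interval_cases a <;> omega
  unfold hh
  simp only [Fin.sum_univ_three]
  omega

theorem el_lt (k : Fin 3) {c : ℕ × ℕ} (hc : c ∈ W k) (x : ZMod p) :
    ∃ X Y : ℕ, el κ k c x = X + 4 * p * Y ∧ X = x.val + c.1 * p ∧ Y = (κ k * x ^ 2).val + c.2 * p ∧
      X < 5 * p ∧ Y < 30 * p := by
  obtain ⟨h1, h2⟩ := W_bound k c hc
  have h3 := ZMod.val_lt x
  have h4 := ZMod.val_lt (κ k * x ^ 2)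
  refine ⟨_, _, rfl, rfl, rfl, ?_, ?_⟩
  · nlinarith
  · nlinarith

theorem SS_sub {m : ℕ} [NeZero m] (hm : 240 * p ^ 2 + 10 * p ≤ 4 * m) (k l : Fin 3) (n : ZMod m) :
    SS κ m k l n ⊆ (Finset.range 4).biUnion (fun γ => (Finset.range 3).biUnion (fun a =>
      TT κ k l ((n.val + γ * m) % (4 * p) + a * (4 * p)) ((n.val + γ * m) / (4 * p) - a))) := by
  have hp0 : 0 < p := hp.out.pos
  intro u hu
  simp only [SS, IP, Finset.mem_filter, Finset.mem_product, Finset.mem_univ, and_true] at hu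
  obtain ⟨⟨h1, h2⟩, h3⟩ := hu
  obtain ⟨X, Y, e1, hX, hY, hX5, hY30⟩ := el_lt κ k h1 u.1.2
  obtain ⟨X', Y', e1', hX', hY', hX5', hY30'⟩ := el_lt κ l h2 u.2.2
  rw [e1, e1'] at h3
  set N := X + 4 * p * Y + (X' + 4 * p * Y') with hN
  have hN4 : N < 4 * m := by nlinarith
  have hγ : N / m < 4 := by
    rw [Nat.div_lt_iff_lt_mul (NeZero.pos m)]
    exact hN4
  have hmod : N % m = n.val := by
    rw [← h3, ZMod.val_natCast]
  have hNe : n.val + N / m * m = N := by
    rw [← hmod]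
    have := Nat.mod_add_div N m
    rw [mul_comm] at this
    exact this
  have ha : (X + X') / (4 * p) < 3 := by
    rw [Nat.div_lt_iff_lt_mul (by omega)]
    omega
  simp only [Finset.mem_biUnion, Finset.mem_range]
  refine ⟨N / m, hγ, (X + X') / (4 * p), ha, ?_⟩
  rw [hNe]
  simp only [TT, IP, Finset.mem_filter, Finset.mem_product, Finset.mem_univ, and_true]
  have h4p : 0 < 4 * p := by omega
  have hN' : N = (X + X') + 4 * p * (Y + Y') := by
    rw [hN]; ring
  have hNm : N % (4 * p) = (X + X') % (4 * p) := by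
    rw [hN', Nat.add_mul_mod_self_left]
  have hNd : N / (4 * p) = (X + X') / (4 * p) + (Y + Y') := by
    rw [hN', Nat.add_mul_div_left _ _ h4p]
  refine ⟨⟨h1, h2⟩, ?_, ?_⟩
  · rw [hNm]
    have := Nat.mod_add_div (X + X') (4 * p)
    rw [mul_comm ((X + X') / (4 * p)), this, hX, hX']
    ring
  · rw [hNd, Nat.add_sub_cancel_left, hY, hY']
    ring

theorem sig_le {m : ℕ} [NeZero m] (hm : 240 * p ^ 2 + 10 * p ≤ 4 * m)
    (hm' : m ≤ 64 * p ^ 2) (hκ : Good κ) (n : ZMod m) :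
    sig (AA κ m) n ≤ ∑ γ ∈ Finset.range 4,
      FF ((n.val + γ * m) % (4 * p) / p) ((n.val + γ * m) / (4 * p) / p)
        (((n.val + γ * m) / (4 * p) - 1) / p) (((n.val + γ * m) / (4 * p) - 2) / p) := by
  have hp0 : 0 < p := hp.out.pos
  refine (sig_le_SS κ n).trans ?_
  have h1 : ∀ k l : Fin 3, (SS κ m k l n).card ≤ ∑ γ ∈ Finset.range 4, ∑ a ∈ Finset.range 3,
      (TT κ k l ((n.val + γ * m) % (4 * p) + a * (4 * p)) ((n.val + γ * m) / (4 * p) - a)).card := by
    intro k l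
    refine (Finset.card_le_card (SS_sub κ hm k l n)).trans (Finset.card_biUnion_le.trans ?_)
    exact Finset.sum_le_sum fun γ _ => Finset.card_biUnion_le
  refine (Finset.sum_le_sum fun k _ => Finset.sum_le_sum fun l _ => h1 k l).trans ?_
  have h2 : ∑ k : Fin 3, ∑ l : Fin 3, ∑ γ ∈ Finset.range 4, ∑ a ∈ Finset.range 3,
      (TT κ k l ((n.val + γ * m) % (4 * p) + a * (4 * p)) ((n.val + γ * m) / (4 * p) - a)).card =
      ∑ γ ∈ Finset.range 4, ∑ a ∈ Finset.range 3, ∑ k : Fin 3, ∑ l : Fin 3,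
      (TT κ k l ((n.val + γ * m) % (4 * p) + a * (4 * p)) ((n.val + γ * m) / (4 * p) - a)).card := by
    simp only [Finset.sum_comm (s := (Finset.univ : Finset (Fin 3))) (t := Finset.range 4),
      Finset.sum_comm (s := (Finset.univ : Finset (Fin 3))) (t := Finset.range 3)]
  rw [h2]
  refine Finset.sum_le_sum fun γ hγ => ?_
  have hγ4 : γ < 4 := Finset.mem_range.1 hγ
  have hr : (n.val + γ * m) % (4 * p) < 4 * p := Nat.mod_lt _ (by omega)
  have hval : n.val < m := ZMod.val_lt n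
  have hN : n.val + γ * m < 256 * p ^ 2 := by nlinarith
  have hD : (n.val + γ * m) / (4 * p) < 64 * p := by
    rw [Nat.div_lt_iff_lt_mul (by omega)]
    nlinarith
  have h3 : ∀ a < 3, ∑ k : Fin 3, ∑ l : Fin 3,
      (TT κ k l ((n.val + γ * m) % (4 * p) + a * (4 * p)) ((n.val + γ * m) / (4 * p) - a)).card ≤
      hh ((n.val + γ * m) % (4 * p) / p + 4 * a) (((n.val + γ * m) / (4 * p) - a) / p) := by
    intro a ha
    have h4 : ((n.val + γ * m) % (4 * p) + a * (4 * p)) / p =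
        (n.val + γ * m) % (4 * p) / p + 4 * a := by
      have : a * (4 * p) = (4 * a) * p := by ring
      rw [this, Nat.add_mul_div_right _ _ hp0]
    have h5 : (n.val + γ * m) % (4 * p) / p < 4 := by
      rw [Nat.div_lt_iff_lt_mul hp0]
      exact hr
    have h6 := sum_TT κ hκ (s := (n.val + γ * m) % (4 * p) + a * (4 * p))
      (v := (n.val + γ * m) / (4 * p) - a) (by rw [h4]; omega)
      (by rw [Nat.div_lt_iff_lt_mul hp0]; omega)
    rw [h4] at h6
    exact h6
  have h0 := h3 0 (by norm_num)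
  have h1' := h3 1 (by norm_num)
  have h2' := h3 2 (by norm_num)
  rw [Finset.sum_range_succ, Finset.sum_range_succ, Finset.sum_range_succ, Finset.sum_range_zero,
    zero_add]
  unfold FF
  exact Nat.add_le_add (Nat.add_le_add h0 h1') h2'

end Pool.Agent.Ruzsa
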