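import Mathlib

/-!
# Ruzsa numbers: definitions
-/

set_option autoImplicit false

namespace Pool.Agent.Ruzsa

/-- the number of ordered pairs `(a, a')` in `A × A` with `a + a' = n` -/
def sig {m : ℕ} (A : Finset (ZMod m)) (n : ZMod m) : ℕ :=
  ((A ×ˢ A).filter (fun q => q.1 + q.2 = n)).card

/-- the Ruzsa number `R_m`: the least `r` such that some `A ⊆ ℤ/m` has
`1 ≤ σ_A(n) ≤ r` for all `n` -/
noncomputable def ruzsa (m : ℕ) : ℕ :=
  sInf {r : ℕ | ∃ A : Finset (ZMod m), ∀ n : ZMod m, 1 ≤ sig A n ∧ sig A n ≤ r}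

end Pool.Agent.Ruzsa
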