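import Pool.Agent.Ruzsa.Defs

/-!
# Lower bound: `R_m ≥ 6` for large `m` (energy argument)
-/

set_option autoImplicit false

namespace Pool.Agent.Ruzsa

open Finset

variable {m : ℕ} [NeZero m] (A : Finset (ZMod m))

/-- number of representations as a difference -/
def del (d : ZMod m) : ℕ := ((A ×ˢ A).filter (fun q => q.1 - q.2 = d)).card

theorem sum_sig : ∑ n, sig A n = A.card ^ 2 := by
  have h := Finset.card_eq_sum_card_fiberwise (s := A ×ˢ A) (t := Finset.univ)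
    (f := fun q : ZMod m × ZMod m => q.1 + q.2) (fun _ _ => Finset.mem_coe.2 (Finset.mem_univ _))
  rw [Finset.card_product] at h
  rw [sq, h]
  rfl

theorem sum_del : ∑ n, del A n = A.card ^ 2 := by
  have h := Finset.card_eq_sum_card_fiberwise (s := A ×ˢ A) (t := Finset.univ)
    (f := fun q : ZMod m × ZMod m => q.1 - q.2) (fun _ _ => Finset.mem_coe.2 (Finset.mem_univ _))
  rw [Finset.card_product] at h
  rw [sq, h]
  rfl

omit [NeZero m] in
theorem del_zero : del A 0 = A.card := by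
  unfold del
  rw [← Finset.card_image_of_injective A (f := fun a => (a, a)) (fun a b h => (Prod.ext_iff.1 h).1)]
  congr 1
  ext ⟨a, b⟩
  simp only [Finset.mem_filter, Finset.mem_product, Finset.mem_image, sub_eq_zero, Prod.mk.injEq]
  constructor
  · rintro ⟨⟨h1, h2⟩, rfl⟩
    exact ⟨a, h1, rfl, rfl⟩
  · rintro ⟨c, hc, rfl, rfl⟩
    exact ⟨⟨hc, hc⟩, rfl⟩

/-- both second moments are the additive energy -/
theorem energy : ∑ n, sig A n ^ 2 = ∑ n, del A n ^ 2 := by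
  have h1 : ∀ n, sig A n ^ 2 = (((A ×ˢ A) ×ˢ (A ×ˢ A)).filter
      (fun q => q.1.1 + q.1.2 = n ∧ q.2.1 + q.2.2 = n)).card := by
    intro n
    unfold sig
    rw [sq, ← Finset.card_product]
    congr 1
    ext ⟨⟨a, b⟩, ⟨c, d⟩⟩
    simp only [Finset.mem_product, Finset.mem_filter]
    tauto
  have h2 : ∀ n, del A n ^ 2 = (((A ×ˢ A) ×ˢ (A ×ˢ A)).filter
      (fun q => q.1.1 - q.1.2 = n ∧ q.2.1 - q.2.2 = n)).card := by
    intro n
    unfold del
    rw [sq, ← Finset.card_product]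
    congr 1
    ext ⟨⟨a, b⟩, ⟨c, d⟩⟩
    simp only [Finset.mem_product, Finset.mem_filter]
    tauto
  have h3 : ∑ n, sig A n ^ 2 = (((A ×ˢ A) ×ˢ (A ×ˢ A)).filter
      (fun q => q.1.1 + q.1.2 = q.2.1 + q.2.2)).card := by
    rw [Finset.card_eq_sum_card_fiberwise (t := Finset.univ)
      (f := fun q : (ZMod m × ZMod m) × (ZMod m × ZMod m) => q.1.1 + q.1.2)
      (fun _ _ => Finset.mem_coe.2 (Finset.mem_univ _))]
    refine Finset.sum_congr rfl fun n _ => ?_
    rw [h1 n, Finset.filter_filter]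
    congr 1
    refine Finset.filter_congr ?_
    intro q _
    constructor
    · rintro ⟨h3, h4⟩
      exact ⟨h3.trans h4.symm, h3⟩
    · rintro ⟨h3, h4⟩
      exact ⟨h4, h3 ▸ h4⟩
  have h4 : ∑ n, del A n ^ 2 = (((A ×ˢ A) ×ˢ (A ×ˢ A)).filter
      (fun q => q.1.1 - q.1.2 = q.2.1 - q.2.2)).card := by
    rw [Finset.card_eq_sum_card_fiberwise (t := Finset.univ)
      (f := fun q : (ZMod m × ZMod m) × (ZMod m × ZMod m) => q.1.1 - q.1.2)
      (fun _ _ => Finset.mem_coe.2 (Finset.mem_univ _))]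
    refine Finset.sum_congr rfl fun n _ => ?_
    rw [h2 n, Finset.filter_filter]
    congr 1
    refine Finset.filter_congr ?_
    intro q _
    constructor
    · rintro ⟨h3, h4⟩
      exact ⟨h3.trans h4.symm, h3⟩
    · rintro ⟨h3, h4⟩
      exact ⟨h4, h3 ▸ h4⟩
  rw [h3, h4]
  refine Finset.card_bij (fun q _ => ((q.1.1, q.2.2), (q.2.1, q.1.2))) ?_ ?_ ?_
  · rintro ⟨⟨a, b⟩, ⟨c, d⟩⟩ h
    simp only [Finset.mem_filter, Finset.mem_product] at h ⊢
    refine ⟨⟨⟨h.1.1.1, h.1.2.2⟩, ⟨h.1.2.1, h.1.1.2⟩⟩, ?_⟩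
    have := h.2
    linear_combination this
  · rintro ⟨⟨a, b⟩, ⟨c, d⟩⟩ _ ⟨⟨a', b'⟩, ⟨c', d'⟩⟩ _ h
    simp only [Prod.mk.injEq] at h ⊢
    tauto
  · rintro ⟨⟨a, b⟩, ⟨c, d⟩⟩ h
    simp only [Finset.mem_filter, Finset.mem_product] at h
    refine ⟨((a, d), (c, b)), ?_, rfl⟩
    simp only [Finset.mem_filter, Finset.mem_product]
    refine ⟨⟨⟨h.1.1.1, h.1.2.2⟩, ⟨h.1.2.1, h.1.1.2⟩⟩, ?_⟩
    have := h.2
    linear_combination this

/-- lower bound for the energy -/
theorem energy_ge : (A.card : ℝ) ^ 2 * m + (A.card * (A.card - 1 : ℝ)) ^ 2 ≤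
    (∑ n, (del A n : ℝ) ^ 2) * m := by
  have hm : 0 < m := Nat.pos_of_ne_zero (NeZero.ne m)
  have h1 : ∑ n, (del A n : ℝ) ^ 2 = (A.card : ℝ) ^ 2 +
      ∑ n ∈ Finset.univ.erase (0 : ZMod m), (del A n : ℝ) ^ 2 := by
    rw [← Finset.add_sum_erase Finset.univ (fun n => (del A n : ℝ) ^ 2) (Finset.mem_univ 0),
      del_zero]
  have h2 : ∑ n ∈ Finset.univ.erase (0 : ZMod m), (del A n : ℝ) = A.card * (A.card - 1 : ℝ) := by
    have h3 := Finset.add_sum_erase Finset.univ (fun n => (del A n : ℝ)) (Finset.mem_univ 0)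
    have h4 : ∑ n, (del A n : ℝ) = (A.card : ℝ) ^ 2 := by
      exact_mod_cast sum_del A
    rw [h4] at h3
    simp only [del_zero] at h3
    linarith
  have h3 := sq_sum_le_card_mul_sum_sq (s := Finset.univ.erase (0 : ZMod m))
    (f := fun n => (del A n : ℝ))
  rw [h2] at h3
  have h4 : ((Finset.univ.erase (0 : ZMod m)).card : ℝ) ≤ m := by
    have := Finset.card_erase_le (s := (Finset.univ : Finset (ZMod m))) (a := 0)
    rw [Finset.card_univ, ZMod.card] at this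
    exact_mod_cast this
  have h5 : 0 ≤ ∑ n ∈ Finset.univ.erase (0 : ZMod m), (del A n : ℝ) ^ 2 :=
    Finset.sum_nonneg fun _ _ => sq_nonneg _
  have h6 := mul_le_mul_of_nonneg_right h4 h5
  rw [h1]
  nlinarith

/-- the values `n` with `σ(n)` odd are doubles of elements of `A` -/
theorem odd_sig {n : ZMod m} (h : sig A n % 2 = 1) : n ∈ A.image (fun a => a + a) := by
  classical
  by_contra hn
  have h1 : (∑ _q ∈ (A ×ˢ A).filter (fun q : ZMod m × ZMod m => q.1 + q.2 = n), (1 : ZMod 2)) = 0 := by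
    refine Finset.sum_involution (fun q _ => (q.2, q.1)) ?_ ?_ ?_ ?_
    · intro q _
      decide
    · rintro ⟨a, b⟩ hq _ he
      simp only [Finset.mem_filter, Finset.mem_product, Prod.mk.injEq] at hq he
      apply hn
      rw [Finset.mem_image]
      refine ⟨a, hq.1.1, ?_⟩
      rw [← hq.2, he.1]
    · rintro ⟨a, b⟩ hq
      simp only [Finset.mem_filter, Finset.mem_product] at hq ⊢
      refine ⟨⟨hq.1.2, hq.1.1⟩, ?_⟩
      rw [← hq.2, add_comm]
    · rintro ⟨a, b⟩ _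
      rfl
  rw [Finset.sum_const, nsmul_eq_mul, mul_one, ZMod.natCast_eq_zero_iff] at h1
  unfold sig at h
  omega

/-- `R_m ≥ 6`: the key inequality -/
theorem exists_six {A : Finset (ZMod m)} (hm : 1000 ≤ m) (h1 : ∀ n, 1 ≤ sig A n) :
    ∃ n, 6 ≤ sig A n := by
  classical
  by_contra hcon
  push Not at hcon
  have h5 : ∀ n, sig A n ≤ 5 := fun n => by
    have := hcon n
    omega
  -- sizes
  have hsum := sum_sig A
  have hm1 : m ≤ A.card ^ 2 := by
    rw [← hsum]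
    calc m = ∑ _n : ZMod m, 1 := by
          rw [Finset.sum_const, Finset.card_univ, ZMod.card, smul_eq_mul, mul_one]
      _ ≤ _ := Finset.sum_le_sum fun n _ => h1 n
  have hm2 : A.card ^ 2 ≤ 5 * m := by
    rw [← hsum]
    calc ∑ n, sig A n ≤ ∑ _n : ZMod m, 5 := Finset.sum_le_sum fun n _ => h5 n
      _ = 5 * m := by
          rw [Finset.sum_const, Finset.card_univ, ZMod.card, smul_eq_mul, mul_comm]
  -- the polynomial inequality
  have hp : ∀ n, ((sig A n : ℤ) - 2) * (sig A n - 4) ≤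
      if n ∈ A.image (fun a => a + a) then 3 else 0 := by
    intro n
    have h2 := h1 n
    have h3 := h5 n
    by_cases hn : n ∈ A.image (fun a => a + a)
    · rw [if_pos hn]
      obtain h | h | h | h | h : sig A n = 1 ∨ sig A n = 2 ∨ sig A n = 3 ∨ sig A n = 4 ∨
        sig A n = 5 := by omega
      all_goals rw [h]; norm_num
    · rw [if_neg hn]
      have h4 : sig A n % 2 = 0 := by
        have := mt (odd_sig A (n := n)) hn
        omega
      obtain h | h : sig A n = 2 ∨ sig A n = 4 := by omega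
      all_goals rw [h]; norm_num
  have hs : ∑ n, ((sig A n : ℤ) - 2) * (sig A n - 4) ≤ 3 * A.card := by
    refine (Finset.sum_le_sum fun n _ => hp n).trans ?_
    rw [Finset.sum_ite_mem, Finset.univ_inter, Finset.sum_const, nsmul_eq_mul, mul_comm]
    have := Finset.card_image_le (s := A) (f := fun a => a + a)
    have h' : ((A.image (fun a => a + a)).card : ℤ) ≤ A.card := by exact_mod_cast this
    linarith
  have hE : ∑ n, (sig A n : ℤ) ^ 2 ≤ 6 * (A.card : ℤ) ^ 2 - 8 * m + 3 * A.card := by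
    have e : ∑ n, ((sig A n : ℤ) - 2) * (sig A n - 4) =
        ∑ n, (sig A n : ℤ) ^ 2 - 6 * ∑ n, (sig A n : ℤ) + 8 * m := by
      rw [Finset.mul_sum, ← Finset.sum_sub_distrib]
      have : (8 * m : ℤ) = ∑ _n : ZMod m, (8 : ℤ) := by
        rw [Finset.sum_const, Finset.card_univ, ZMod.card, nsmul_eq_mul]
        ring
      rw [this, ← Finset.sum_add_distrib]
      refine Finset.sum_congr rfl fun n _ => ?_
      ring
    have e2 : ∑ n, (sig A n : ℤ) = (A.card : ℤ) ^ 2 := by exact_mod_cast hsum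
    rw [e, e2] at hs
    linarith
  have hE2 : (∑ n, (del A n : ℝ) ^ 2) ≤ 6 * (A.card : ℝ) ^ 2 - 8 * m + 3 * A.card := by
    have e3 : (∑ n, (del A n : ℤ) ^ 2) = ∑ n, (sig A n : ℤ) ^ 2 := by
      exact_mod_cast (energy A).symm
    rw [← e3] at hE
    exact_mod_cast hE
  have hlow := energy_ge A
  have hmR : (1000 : ℝ) ≤ m := by exact_mod_cast hm
  have hmul := mul_le_mul_of_nonneg_right hE2 (show (0:ℝ) ≤ m by linarith)
  have hk1 : (m : ℝ) ≤ (A.card : ℝ) ^ 2 := by exact_mod_cast hm1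
  have hk2 : (A.card : ℝ) ^ 2 ≤ 5 * m := by exact_mod_cast hm2
  obtain ⟨k, hk⟩ : ∃ k : ℝ, k = A.card := ⟨_, rfl⟩
  obtain ⟨M, hM⟩ : ∃ M : ℝ, M = m := ⟨_, rfl⟩
  rw [← hk, ← hM] at hlow hmul hk1 hk2
  rw [← hM] at hmR
  have hk0 : 0 ≤ k := by
    rw [hk]
    positivity
  have hk3 : 31 ≤ k := by nlinarith
  -- k^2 M + k^2 (k-1)^2 ≤ 6 k^2 M - 8 M^2 + 3 k M
  have key : k ^ 2 * M + (k * (k - 1)) ^ 2 ≤ (6 * k ^ 2 - 8 * M + 3 * k) * M := by
    linarith
  have hk4 : k < M / 8 := by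
    by_contra hc
    push Not at hc
    have h8 : (M / 8) ^ 2 ≤ k ^ 2 := by
      apply pow_le_pow_left₀ (by linarith) hc
    nlinarith
  have h9 : (k ^ 2 - 5 / 2 * M) ^ 2 + 7 / 4 * M ^ 2 ≤ 2 * k ^ 3 - k ^ 2 + 3 * k * M := by
    nlinarith
  have h10 : 2 * k ^ 3 ≤ 10 * k * M := by
    nlinarith
  have h11 : k * M ≤ M / 8 * M := mul_le_mul_of_nonneg_right hk4.le (by linarith)
  nlinarith [sq_nonneg (k ^ 2 - 5 / 2 * M), sq_nonneg k]

end Pool.Agent.Ruzsa
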