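import Pool.Agent.Lib.ANT.PNT
import Mathlib.NumberTheory.Chebyshev

/-!
# Primes in `(y, (1+ε) y]` for large `y`
-/

set_option autoImplicit false

namespace Pool.Agent.Ruzsa

open Chebyshev Filter Asymptotics

theorem exists_prime_between {ε : ℝ} (hε : 0 < ε) (hε1 : ε ≤ 1) : ∃ Y : ℝ, ∀ y : ℝ, Y ≤ y →
    ∃ p : ℕ, p.Prime ∧ y < p ∧ (p : ℝ) ≤ (1 + ε) * y := by
  obtain ⟨C, hC, h⟩ := Pool.Agent.ANT.psi_pnt 1
  have hpsi : ∀ x : ℝ, 3 ≤ x → |psi x - x| ≤ C * x / Real.log x := by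
    intro x hx
    have h1 := h x hx
    rw [pow_one] at h1
    have h2 : psi x = ∑ n ∈ Finset.Icc 1 ⌊x⌋₊, ArithmeticFunction.vonMangoldt n := by
      rw [psi]
      rfl
    rw [h2]
    exact h1
  have hlog : ∀ᶠ y : ℝ in atTop, 12 * C / ε ≤ Real.log y :=
    Real.tendsto_log_atTop.eventually_ge_atTop _
  have hsq : ∀ᶠ y : ℝ in atTop, Real.log y ≤ (ε / 16) * y ^ (1 / 2 : ℝ) := by
    have := (isLittleO_log_rpow_atTop (show (0:ℝ) < 1/2 by norm_num)).bound
      (show (0:ℝ) < ε / 16 by positivity)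
    filter_upwards [this, eventually_ge_atTop 1] with y hy hy1
    rw [Real.norm_of_nonneg (Real.log_nonneg hy1),
      Real.norm_of_nonneg (Real.rpow_nonneg (by linarith) _)] at hy
    exact hy
  obtain ⟨Y1, hY1⟩ := eventually_atTop.1 (hlog.and hsq)
  refine ⟨max Y1 3, fun y hy => ?_⟩
  have hyY : Y1 ≤ y := le_trans (le_max_left _ _) hy
  have hy3 : 3 ≤ y := le_trans (le_max_right _ _) hy
  set x := (1 + ε) * y with hx
  have hxy : y < x := by nlinarith
  have hx2 : x ≤ 2 * y := by nlinarith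
  obtain ⟨hl, -⟩ := hY1 y hyY
  obtain ⟨-, hs⟩ := hY1 x (by linarith)
  have hly : 0 < Real.log y := lt_of_lt_of_le (by positivity) hl
  have hlxy : Real.log y ≤ Real.log x := Real.log_le_log (by linarith) hxy.le
  have e1 := (abs_le.1 (hpsi y hy3)).2
  have e2 := (abs_le.1 (hpsi x (by linarith))).1
  have e3 := (abs_le.1 (abs_psi_sub_theta_le_sqrt_mul_log (x := x) (by linarith))).2
  have e4 := theta_le_psi y
  have e5 : C * y / Real.log y ≤ ε / 12 * y := by
    rw [div_le_iff₀ hly]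
    rw [div_le_iff₀ hε] at hl
    nlinarith
  have e6 : C * x / Real.log x ≤ ε / 12 * x := by
    rw [div_le_iff₀ (by linarith)]
    rw [div_le_iff₀ hε] at hl
    have : 12 * C ≤ Real.log x * ε := by nlinarith
    nlinarith
  have e7 : 2 * √x * Real.log x ≤ ε / 8 * x := by
    rw [Real.sqrt_eq_rpow]
    have h0 : 0 ≤ x ^ (1 / 2 : ℝ) := Real.rpow_nonneg (by linarith) _
    have h1 : x ^ (1 / 2 : ℝ) * x ^ (1 / 2 : ℝ) = x := by
      rw [← Real.rpow_add (by linarith)]
      norm_num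
    calc 2 * x ^ (1 / 2 : ℝ) * Real.log x ≤ 2 * x ^ (1 / 2 : ℝ) * (ε / 16 * x ^ (1 / 2 : ℝ)) := by
          gcongr
      _ = ε / 8 * (x ^ (1 / 2 : ℝ) * x ^ (1 / 2 : ℝ)) := by ring
      _ = ε / 8 * x := by rw [h1]
  have e8 : theta y < theta x := by
    have : x - y = ε * y := by rw [hx]; ring
    nlinarith
  rw [theta, theta] at e8
  by_contra hcon
  push Not at hcon
  apply absurd e8
  push Not
  apply Finset.sum_le_sum_of_subset_of_nonneg
  · intro q hq
    simp only [Finset.mem_filter, Finset.mem_Ioc] at hq ⊢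
    obtain ⟨⟨h0, h1⟩, h2⟩ := hq
    refine ⟨⟨h0, ?_⟩, h2⟩
    by_contra h3
    push Not at h3
    have h4 : y < q := by
      rwa [Nat.floor_lt (by linarith)] at h3
    have h5 : (q : ℝ) ≤ x := by
      rwa [Nat.le_floor_iff (by linarith)] at h1
    exact absurd h5 (not_le.2 (hcon q h2 h4))
  · intro q _ _
    exact Real.log_natCast_nonneg q

end Pool.Agent.Ruzsa
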