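import Pool.Agent.Ruzsa.Upper
import Pool.Agent.Ruzsa.Lower
import Pool.Agent.Ruzsa.PrimeGap

/-!
# Bounds for the Ruzsa numbers of large moduli
-/

set_option autoImplicit false

namespace Pool.Agent.Ruzsa

open Finset

theorem exists_good_prime : ∃ M : ℕ, ∀ m : ℕ, M ≤ m → ∃ p : ℕ, p.Prime ∧ 200 ≤ p ∧
    m / (4 * p) + 10 ≤ 16 * p ∧ 20 * (16 * p) ≤ 20 * (m / (4 * p)) + p := by
  obtain ⟨Y, hY⟩ := exists_prime_between (ε := 1 / 3000) (by norm_num) (by norm_num)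
  obtain ⟨M, hM⟩ := exists_nat_ge ((8 * max Y 2000) ^ 2)
  refine ⟨M, fun m hm => ?_⟩
  have hmR : (8 * max Y 2000) ^ 2 ≤ (m : ℝ) := hM.trans (by exact_mod_cast hm)
  set y0 : ℝ := √m / 8 with hy0
  have h1 : max Y 2000 ≤ y0 := by
    have : 8 * max Y 2000 ≤ √m := Real.le_sqrt_of_sq_le hmR
    rw [hy0]
    linarith
  have hy0Y : Y ≤ y0 := (le_max_left _ _).trans h1
  have hy0k : 2000 ≤ y0 := (le_max_right _ _).trans h1
  have hsq : 64 * y0 ^ 2 = m := by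
    rw [hy0, div_pow, Real.sq_sqrt (Nat.cast_nonneg m)]
    ring
  obtain ⟨p, hp, hp1, hp2⟩ := hY (3001 / 3000 * y0) (by linarith)
  have hpk : (2000 : ℝ) < p := by linarith
  have hpN : 2000 < p := by exact_mod_cast hpk
  have hp0 : 0 < p := by omega
  have hlow : (m : ℝ) * (3001 / 3000) ^ 2 ≤ 64 * (p : ℝ) ^ 2 := by
    rw [← hsq]
    nlinarith
  have hupp : 64 * (p : ℝ) ^ 2 ≤ (m : ℝ) * (3001 / 3000) ^ 4 := by
    rw [← hsq]
    have : (p : ℝ) ≤ (3001 / 3000) ^ 2 * y0 := by linarith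
    nlinarith
  refine ⟨p, hp, by omega, ?_, ?_⟩
  · have h2 : m < (16 * p - 9) * (4 * p) := by
      have h3 : (m : ℝ) < (16 * p - 9) * (4 * p) := by nlinarith
      have h4 : ((16 * p - 9 : ℕ) : ℝ) = 16 * p - 9 := by
        rw [Nat.cast_sub (by omega)]
        push_cast
        ring
      rw [← h4] at h3
      exact_mod_cast h3
    have h5 : m / (4 * p) < 16 * p - 9 := by
      rw [Nat.div_lt_iff_lt_mul (by omega)]
      exact h2
    omega
  · have h2 : m < (m / (4 * p) + 1) * (4 * p) := by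
      have h3 := Nat.div_add_mod m (4 * p)
      have h4 : m % (4 * p) < 4 * p := Nat.mod_lt _ (by omega)
      nlinarith
    have h3 : (m : ℝ) < ((m / (4 * p) : ℕ) + 1) * (4 * p) := by exact_mod_cast h2
    have h4 : 63.88 * (p : ℝ) ^ 2 ≤ m := by nlinarith
    have h5 : 15.97 * (p : ℝ) < ((m / (4 * p) : ℕ) : ℝ) + 1 := by
      by_contra hcon
      push Not at hcon
      nlinarith
    have h6 : (20 * (16 * p) : ℝ) ≤ 20 * ((m / (4 * p) : ℕ) : ℝ) + p := by nlinarith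
    exact_mod_cast h6

/-- the coefficients -/
theorem exists_kappa {p : ℕ} [hp : Fact p.Prime] (h11 : 11 ≤ p) :
    ∃ κ : Fin 3 → ZMod p, Good κ := by
  have h2 : p ≠ 2 := by omega
  have hchar : ringChar (ZMod p) ≠ 2 := by rwa [ZMod.ringChar_zmod_n]
  have h20 : (2 : ZMod p) ≠ 0 := Ring.two_ne_zero hchar
  obtain ⟨ν, hν, h1, h3, h4⟩ := exists_nu (p := p) h11
  have hν0 : ν ≠ 0 := by
    rintro rfl
    exact hν ⟨0, by simp⟩
  refine ⟨![1, 2 * ν / (1 + ν), ν], ?_, ?_⟩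
  · have a00 : (1 : ZMod p) + 1 ≠ 0 := by rw [one_add_one_eq_two]; exact h20
    have a11 : 2 * ν / (1 + ν) + 2 * ν / (1 + ν) ≠ 0 := by
      rw [← two_mul]
      exact mul_ne_zero h20 (div_ne_zero (mul_ne_zero h20 hν0) h1)
    have a22 : ν + ν ≠ 0 := by rw [← two_mul]; exact mul_ne_zero h20 hν0
    have a01 : 1 + 2 * ν / (1 + ν) ≠ 0 := by
      have : 1 + 2 * ν / (1 + ν) = (1 + 3 * ν) / (1 + ν) := by
        field_simp
        ring
      rw [this]
      exact div_ne_zero h3 h1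
    have a12 : 2 * ν / (1 + ν) + ν ≠ 0 := by
      have : 2 * ν / (1 + ν) + ν = ν * (3 + ν) / (1 + ν) := by
        field_simp
        ring
      rw [this]
      exact div_ne_zero (mul_ne_zero hν0 h4) h1
    intro k l s v
    apply rho_le_two h2
    fin_cases k <;> fin_cases l
    · exact a00
    · exact a01
    · exact h1
    · show 2 * ν / (1 + ν) + 1 ≠ 0
      rw [add_comm]; exact a01
    · exact a11
    · exact a12
    · show ν + 1 ≠ 0
      rw [add_comm]; exact h1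
    · show ν + 2 * ν / (1 + ν) ≠ 0
      rw [add_comm]; exact a12
    · exact a22
  · intro s v
    exact rho_compl h2 hν h1 s v

/-- for every large modulus some set has all representation counts between `1` and `80` -/
theorem exists_set_80 : ∃ M : ℕ, ∀ m : ℕ, M ≤ m →
    ∃ A : Finset (ZMod m), ∀ n : ZMod m, 1 ≤ sig A n ∧ sig A n ≤ 80 := by
  obtain ⟨M, hM⟩ := exists_good_prime
  refine ⟨max M 1, fun m hm => ?_⟩
  have hm1 : 1 ≤ m := (le_max_right _ _).trans hm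
  have : NeZero m := ⟨by omega⟩
  obtain ⟨p, hp, hp200, hV1, hV2⟩ := hM m ((le_max_left _ _).trans hm)
  have : Fact p.Prime := ⟨hp⟩
  obtain ⟨κ, hκ⟩ := exists_kappa (p := p) (by omega)
  exact ⟨AA κ m, fun n => ⟨one_le_sig κ hV1 hκ n, sig_le_80 κ hV1 hV2 hp200 hκ n⟩⟩

theorem ruzsa_le {m r : ℕ} (A : Finset (ZMod m)) (h : ∀ n : ZMod m, 1 ≤ sig A n ∧ sig A n ≤ r) :
    ruzsa m ≤ r := Nat.sInf_le ⟨A, h⟩

theorem six_le_ruzsa {m r : ℕ} (hm : 1000 ≤ m) (A : Finset (ZMod m))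
    (h : ∀ n : ZMod m, 1 ≤ sig A n ∧ sig A n ≤ r) : 6 ≤ ruzsa m := by
  have : NeZero m := ⟨by omega⟩
  unfold ruzsa
  obtain ⟨B, hB⟩ := Nat.sInf_mem (s := {r : ℕ | ∃ A : Finset (ZMod m), ∀ n : ZMod m,
    1 ≤ sig A n ∧ sig A n ≤ r}) ⟨r, A, h⟩
  obtain ⟨n, hn⟩ := exists_six (A := B) hm (fun n => (hB n).1)
  exact hn.trans (hB n).2

/-- the bounds for the Ruzsa numbers of large moduli and for their adjacent differences -/
theorem main : ∃ M : ℕ, ∀ m : ℕ, M ≤ m → ruzsa m ≤ 80 ∧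
    |(ruzsa (m + 1) : ℤ) - (ruzsa m : ℤ)| ≤ 74 := by
  obtain ⟨M, hM⟩ := exists_set_80
  refine ⟨max M 1000, fun m hm => ?_⟩
  have h1 : M ≤ m := (le_max_left _ _).trans hm
  have h2 : 1000 ≤ m := (le_max_right _ _).trans hm
  obtain ⟨A, hA⟩ := hM m h1
  obtain ⟨B, hB⟩ := hM (m + 1) (by omega)
  have e1 := ruzsa_le A hA
  have e2 := ruzsa_le B hB
  have e3 := six_le_ruzsa h2 A hA
  have e4 := six_le_ruzsa (m := m + 1) (by omega) B hB
  refine ⟨e1, ?_⟩
  rw [abs_le]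
  constructor <;> omega

end Pool.Agent.Ruzsa
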