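import Pool.Agent.Ruzsa.Count

/-!
# The upper bound `80` and the covering property
-/

set_option autoImplicit false

namespace Pool.Agent.Ruzsa

open Finset

variable {p : ℕ} [hp : Fact p.Prime] (κ : Fin 3 → ZMod p)

/-- the weight of a row value -/
def GG (p q D : ℕ) : ℕ := FF q (D / p) ((D - 1) / p) ((D - 2) / p)

omit hp in
theorem GG_le_f {q D b r : ℕ} (hq : q < 4) (hD : D = p * b + r) (h2 : 2 ≤ r) (hr : r < p) :
    GG p q D ≤ f b := by
  have hdiv : ∀ r', r' < p → (p * b + r') / p = b := by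
    intro r' hr'
    rw [Nat.mul_add_div (by omega), Nat.div_eq_of_lt hr', add_zero]
  have h0 : D / p = b := by rw [hD]; exact hdiv r hr
  have h1 : (D - 1) / p = b := by
    rw [hD, Nat.add_sub_assoc (by omega)]
    exact hdiv _ (by omega)
  have h3 : (D - 2) / p = b := by
    rw [hD, Nat.add_sub_assoc (by omega)]
    exact hdiv _ (by omega)
  unfold GG
  rw [h0, h1, h3]
  exact FF_le_f hq b

omit hp in
theorem GG_le_fm {q D b r : ℕ} (hq : q < 4) (hD : D = p * b + r) (h2 : r < 2) (hp2 : 3 ≤ p) :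
    GG p q D ≤ fm b := by
  have hdiv : ∀ b r', r' < p → (p * b + r') / p = b := by
    intro b r' hr'
    rw [Nat.mul_add_div (by omega), Nat.div_eq_of_lt hr', add_zero]
  have h0 : D / p = b := by rw [hD]; exact hdiv _ r (by omega)
  rcases Nat.eq_zero_or_pos b with hb | hb
  · subst hb
    have h1 : (D - 1) / p = 0 := Nat.div_eq_of_lt (by omega)
    have h3 : (D - 2) / p = 0 := Nat.div_eq_of_lt (by omega)
    unfold GG
    rw [h0, h1, h3]
    exact FF_le_fm1 hq 0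
  · obtain ⟨b', rfl⟩ : ∃ b', b = b' + 1 := ⟨b - 1, by omega⟩
    have h3 : (D - 2) / p = b' := by
      have : D - 2 = p * b' + (p + r - 2) := by
        rw [hD, mul_add]; omega
      rw [this]
      exact hdiv _ _ (by omega)
    unfold GG
    interval_cases r
    · have h1 : (D - 1) / p = b' := by
        have : D - 1 = p * b' + (p - 1) := by
          rw [hD, mul_add]; omega
        rw [this]
        exact hdiv _ _ (by omega)
      rw [h0, h1, h3]
      exact FF_le_fm2 hq (b' + 1)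
    · have h1 : (D - 1) / p = b' + 1 := by
        rw [hD, Nat.add_sub_cancel]
        have h5 := hdiv (b' + 1) 0 (by omega)
        rwa [add_zero] at h5
      rw [h0, h1, h3]
      exact FF_le_fm1 hq (b' + 1)

omit hp in
theorem tri {q D b : ℕ} {ρ : ℤ} (hq : q < 4) (hD : (D : ℤ) = p * (b + 1) + ρ) (h1 : ρ < p)
    (h2 : 2 - (p : ℤ) ≤ ρ) (hp2 : 3 ≤ p) :
    (2 ≤ ρ → GG p q D ≤ f (b + 1)) ∧ (0 ≤ ρ → ρ < 2 → GG p q D ≤ fm (b + 1)) ∧
      (ρ < 0 → GG p q D ≤ f b) := by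
  refine ⟨fun h => ?_, fun h h' => ?_, fun h => ?_⟩
  · refine GG_le_f (r := ρ.toNat) hq ?_ (by omega) (by omega)
    zify
    rw [Int.toNat_of_nonneg (by omega)]
    exact hD
  · refine GG_le_fm (r := ρ.toNat) hq ?_ (by omega) hp2
    zify
    rw [Int.toNat_of_nonneg (by omega)]
    exact hD
  · refine GG_le_f (r := (p + ρ).toNat) hq ?_ (by omega) (by omega)
    zify
    rw [Int.toNat_of_nonneg (by omega), hD]
    ring

omit hp in
theorem row_step {m N : ℕ} (hp0 : 0 < p) : ∃ ε : ℕ, ε ≤ 1 ∧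
    (N + m) / (4 * p) = N / (4 * p) + m / (4 * p) + ε := by
  have h4 : 0 < 4 * p := by omega
  rw [Nat.add_div h4]
  split_ifs
  · exact ⟨1, le_refl _, rfl⟩
  · exact ⟨0, by norm_num, rfl⟩

omit hp in
theorem sum_bound {m n0 : ℕ} (hn : n0 < m) (hV1 : m / (4 * p) + 10 ≤ 16 * p)
    (hV2 : 20 * (16 * p) ≤ 20 * (m / (4 * p)) + p) (hp0 : 200 ≤ p) :
    ∑ γ ∈ Finset.range 4, GG p ((n0 + γ * m) % (4 * p) / p) ((n0 + γ * m) / (4 * p)) ≤ 80 := by
  have hq : ∀ N : ℕ, N % (4 * p) / p < 4 := by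
    intro N
    rw [Nat.div_lt_iff_lt_mul (by omega)]
    exact Nat.mod_lt _ (by omega)
  rw [Finset.sum_range_succ, Finset.sum_range_succ, Finset.sum_range_succ, Finset.sum_range_succ,
    Finset.sum_range_zero, zero_add]
  obtain ⟨ε1, hε1, h1⟩ := row_step (p := p) (m := m) (N := n0 + 0 * m) (by omega)
  obtain ⟨ε2, hε2, h2⟩ := row_step (p := p) (m := m) (N := n0 + 1 * m) (by omega)
  obtain ⟨ε3, hε3, h3⟩ := row_step (p := p) (m := m) (N := n0 + 2 * m) (by omega)
  rw [show n0 + 0 * m + m = n0 + 1 * m by ring] at h1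
  rw [show n0 + 1 * m + m = n0 + 2 * m by ring] at h2
  rw [show n0 + 2 * m + m = n0 + 3 * m by ring] at h3
  have hD0 : (n0 + 0 * m) / (4 * p) ≤ m / (4 * p) := Nat.div_le_div_right (by omega)
  have hq0 := hq (n0 + 0 * m)
  have hq1 := hq (n0 + 1 * m)
  have hq2 := hq (n0 + 2 * m)
  have hq3 := hq (n0 + 3 * m)
  set q0 := (n0 + 0 * m) % (4 * p) / p
  set q1 := (n0 + 1 * m) % (4 * p) / p
  set q2 := (n0 + 2 * m) % (4 * p) / p
  set q3 := (n0 + 3 * m) % (4 * p) / p
  set D0 := (n0 + 0 * m) / (4 * p)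
  set D1 := (n0 + 1 * m) / (4 * p)
  set D2 := (n0 + 2 * m) / (4 * p)
  set D3 := (n0 + 3 * m) / (4 * p)
  set V := m / (4 * p)
  have hb : D0 / p < 16 := by
    rw [Nat.div_lt_iff_lt_mul (by omega)]
    omega
  have hDr : D0 = p * (D0 / p) + D0 % p := (Nat.div_add_mod D0 p).symm
  have hr : D0 % p < p := Nat.mod_lt _ (by omega)
  set b := D0 / p
  set r := D0 % p
  have hfc := final_check b hb
  obtain ⟨c1, c2, c3, c4, c5, c6, c7, c8⟩ := hfc
  have z0 : (D0 : ℤ) = p * b + r := by exact_mod_cast hDr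
  have z1 : (D1 : ℤ) = p * (((b + 15 : ℕ) : ℤ) + 1) + (r + ε1 - (16 * p - V)) := by
    rw [h1]; push_cast; rw [z0]; ring
  have z2 : (D2 : ℤ) = p * (((b + 31 : ℕ) : ℤ) + 1) + (r + ε1 + ε2 - 2 * (16 * p - V)) := by
    rw [h2, h1]; push_cast; rw [z0]; ring
  have z3 : (D3 : ℤ) = p * (((b + 47 : ℕ) : ℤ) + 1) + (r + ε1 + ε2 + ε3 - 3 * (16 * p - V)) := by
    rw [h3, h2, h1]; push_cast; rw [z0]; ring
  obtain ⟨t1a, t1b, t1c⟩ := tri hq1 z1 (by omega) (by omega) (by omega)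
  obtain ⟨t2a, t2b, t2c⟩ := tri hq2 z2 (by omega) (by omega) (by omega)
  obtain ⟨t3a, t3b, t3c⟩ := tri hq3 z3 (by omega) (by omega) (by omega)
  rw [show b + 15 + 1 = b + 16 from rfl] at t1a t1b
  rw [show b + 31 + 1 = b + 32 from rfl] at t2a t2b
  rw [show b + 47 + 1 = b + 48 from rfl] at t3a t3b
  by_cases hr2 : r < 2
  · have t0 := GG_le_fm hq0 hDr hr2 (by omega)
    have u1 := t1c (by omega)
    have u2 := t2c (by omega)
    have u3 := t3c (by omega)
    omega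
  · push Not at hr2
    have t0 := GG_le_f hq0 hDr hr2 hr
    by_cases h1n : (r : ℤ) + ε1 - (16 * p - V) < 0
    · have u1 := t1c h1n
      have u2 := t2c (by omega)
      have u3 := t3c (by omega)
      omega
    · by_cases h1s : (r : ℤ) + ε1 - (16 * p - V) < 2
      · have u1 := t1b (by omega) h1s
        have u2 := t2c (by omega)
        have u3 := t3c (by omega)
        omega
      · have u1 := t1a (by omega)
        by_cases h2n : (r : ℤ) + ε1 + ε2 - 2 * (16 * p - V) < 0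
        · have u2 := t2c h2n
          have u3 := t3c (by omega)
          omega
        · by_cases h2s : (r : ℤ) + ε1 + ε2 - 2 * (16 * p - V) < 2
          · have u2 := t2b (by omega) h2s
            have u3 := t3c (by omega)
            omega
          · have u2 := t2a (by omega)
            by_cases h3n : (r : ℤ) + ε1 + ε2 + ε3 - 3 * (16 * p - V) < 0
            · have u3 := t3c h3n
              omega
            · by_cases h3s : (r : ℤ) + ε1 + ε2 + ε3 - 3 * (16 * p - V) < 2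
              · have u3 := t3b (by omega) h3s
                omega
              · have u3 := t3a (by omega)
                omega

omit hp in
theorem range_bounds {m : ℕ} (hV1 : m / (4 * p) + 10 ≤ 16 * p)
    (hV2 : 20 * (16 * p) ≤ 20 * (m / (4 * p)) + p) (hp0 : 200 ≤ p) :
    240 * p ^ 2 + 10 * p ≤ 4 * m ∧ m ≤ 64 * p ^ 2 := by
  have h1 : m / (4 * p) * (4 * p) ≤ m := Nat.div_mul_le_self m (4 * p)
  have h2 : m < (m / (4 * p) + 1) * (4 * p) := by
    have h3 := Nat.div_add_mod m (4 * p)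
    have h4 : m % (4 * p) < 4 * p := Nat.mod_lt _ (by omega)
    nlinarith
  constructor
  · nlinarith
  · nlinarith

theorem sig_le_80 {m : ℕ} [NeZero m] (hV1 : m / (4 * p) + 10 ≤ 16 * p)
    (hV2 : 20 * (16 * p) ≤ 20 * (m / (4 * p)) + p) (hp0 : 200 ≤ p) (hκ : Good κ) (n : ZMod m) :
    sig (AA κ m) n ≤ 80 := by
  obtain ⟨h1, h2⟩ := range_bounds hV1 hV2 hp0
  exact (sig_le κ h1 h2 hκ n).trans (sum_bound (ZMod.val_lt n) hV1 hV2 hp0)

/-- lifting a congruence -/
theorem lift_sum {x x' : ZMod p} {s i : ℕ} (h : x + x' = (s : ZMod p))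
    (hi : i + (x.val + x'.val) / p = s / p) : x.val + x'.val + i * p = s := by
  have h1 : (x.val + x'.val) % p = s % p := by
    have : ((x.val + x'.val : ℕ) : ZMod p) = ((s : ℕ) : ZMod p) := by
      push_cast
      simpa using h
    rw [ZMod.natCast_eq_natCast_iff] at this
    exact this
  have h2 := Nat.div_add_mod (x.val + x'.val) p
  have h3 := Nat.div_add_mod s p
  rw [h1] at h2
  rw [← hi, mul_add] at h3
  rw [mul_comm i p]
  omega

theorem carry_lt (x x' : ZMod p) : (x.val + x'.val) / p < 2 := by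
  have h1 := ZMod.val_lt x
  have h2 := ZMod.val_lt x'
  rw [Nat.div_lt_iff_lt_mul hp.out.pos]
  omega

theorem one_le_sig_of {m : ℕ} {n : ZMod m} {a b : ZMod m} (ha : a ∈ AA κ m) (hb : b ∈ AA κ m)
    (hab : a + b = n) : 1 ≤ sig (AA κ m) n := by
  unfold sig
  rw [Nat.succ_le_iff, Finset.card_pos]
  exact ⟨(a, b), by rw [Finset.mem_filter, Finset.mem_product]; exact ⟨⟨ha, hb⟩, hab⟩⟩

theorem cover_pair {m : ℕ} (k l : Fin 3) {s v : ℕ}
    (hfull : ∀ t1 < 4, ∀ t2 < 16, ∀ e1 < 2, ∀ e2 < 2, ∃ c ∈ W k, ∃ c' ∈ W l,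
      c.1 + c'.1 + e1 = t1 + 1 ∧ c.2 + c'.2 + e2 = t2 + 23)
    (hrho : 0 < rho (κ k) (κ l) (s : ZMod p) (v : ZMod p))
    (hs1 : 1 ≤ s / p) (hs2 : s / p ≤ 4) (hv1 : 23 ≤ v / p) (hv2 : v / p < 39) :
    1 ≤ sig (AA κ m) ((s + 4 * p * v : ℕ) : ZMod m) := by
  unfold rho at hrho
  rw [Finset.card_pos] at hrho
  obtain ⟨⟨x, x'⟩, hz⟩ := hrho
  simp only [Finset.mem_filter, Finset.mem_univ, true_and] at hz
  obtain ⟨h1, h2⟩ := hz
  obtain ⟨c, hc, c', hc', h3, h4⟩ := hfull (s / p - 1) (by omega) (v / p - 23) (by omega) _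
    (carry_lt x x') _ (carry_lt (κ k * x ^ 2) (κ l * x' ^ 2))
  have h5 := lift_sum (i := c.1 + c'.1) h1 (by omega)
  have h6 := lift_sum (i := c.2 + c'.2) h2 (by omega)
  refine one_le_sig_of κ (a := ((el κ k c x : ℕ) : ZMod m)) (b := ((el κ l c' x' : ℕ) : ZMod m))
    ((mem_AA κ).2 ⟨k, c, hc, x, rfl⟩) ((mem_AA κ).2 ⟨l, c', hc', x', rfl⟩) ?_
  rw [← Nat.cast_add]
  congr 1
  unfold el
  rw [← h5, ← h6]
  ring

theorem cover {m : ℕ} (hκ : Good κ) {s v : ℕ}
    (hs1 : 1 ≤ s / p) (hs2 : s / p ≤ 4) (hv1 : 23 ≤ v / p) (hv2 : v / p < 39) :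
    1 ≤ sig (AA κ m) ((s + 4 * p * v : ℕ) : ZMod m) := by
  have h := hκ.compl (s : ZMod p) (v : ZMod p)
  rcases Nat.eq_zero_or_pos (rho (κ 0) (κ 2) (s : ZMod p) (v : ZMod p)) with h0 | h0
  · exact cover_pair κ 1 1 full_11 (by omega) hs1 hs2 hv1 hv2
  · exact cover_pair κ 0 2 full_02 h0 hs1 hs2 hv1 hv2

theorem one_le_sig {m : ℕ} [NeZero m] (hV1 : m / (4 * p) + 10 ≤ 16 * p) (hκ : Good κ)
    (n : ZMod m) : 1 ≤ sig (AA κ m) n := by
  have hp0 : 0 < p := hp.out.pos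
  have hp1 : 1 < p := hp.out.one_lt
  set K := 4 * p * (23 * p + 2) with hK
  set N := K + (n - (K : ZMod m)).val with hN
  have hNn : ((N : ℕ) : ZMod m) = n := by
    rw [hN]
    push_cast
    rw [ZMod.natCast_zmod_val]
    ring
  have hval : (n - (K : ZMod m)).val < m := ZMod.val_lt _
  have h4 : 0 < 4 * p := by omega
  have hm : m < (m / (4 * p) + 1) * (4 * p) := by
    have h3 := Nat.div_add_mod m (4 * p)
    have h4 : m % (4 * p) < 4 * p := Nat.mod_lt _ h4
    nlinarith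
  have hD1 : 23 * p + 2 ≤ N / (4 * p) := by
    rw [Nat.le_div_iff_mul_le h4]
    nlinarith
  have hD2 : N / (4 * p) < 23 * p + 2 + (m / (4 * p) + 1) := by
    rw [Nat.div_lt_iff_lt_mul h4]
    nlinarith
  have hNe : N = N % (4 * p) + 4 * p * (N / (4 * p)) := (Nat.mod_add_div N (4 * p)).symm
  have hq : N % (4 * p) / p < 4 := by
    rw [Nat.div_lt_iff_lt_mul hp0]
    exact Nat.mod_lt _ h4
  have hdiv : ∀ v, 23 * p ≤ v → v < 39 * p → 23 ≤ v / p ∧ v / p < 39 := by
    intro v h1 h2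
    exact ⟨by rw [Nat.le_div_iff_mul_le hp0]; exact h1,
      by rw [Nat.div_lt_iff_lt_mul hp0]; exact h2⟩
  rcases Nat.eq_zero_or_pos (N % (4 * p) / p) with h0 | h0
  · obtain ⟨h5, h6⟩ := hdiv (N / (4 * p) - 1) (by omega) (by omega)
    have h7 : (N % (4 * p) + 4 * p) / p = 4 := by
      rw [Nat.add_mul_div_right _ _ hp0, h0]
    have := cover (m := m) κ hκ (s := N % (4 * p) + 4 * p) (v := N / (4 * p) - 1) (by omega)
      (by omega) h5 h6
    have h8 : N % (4 * p) + 4 * p + 4 * p * (N / (4 * p) - 1) = N := by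
      obtain ⟨d, hd⟩ : ∃ d, N / (4 * p) = d + 1 := ⟨N / (4 * p) - 1, by omega⟩
      rw [hd] at hNe ⊢
      rw [Nat.add_sub_cancel]
      nlinarith
    rw [h8, hNn] at this
    exact this
  · obtain ⟨h5, h6⟩ := hdiv (N / (4 * p)) (by omega) (by omega)
    have := cover (m := m) κ hκ (s := N % (4 * p)) (v := N / (4 * p)) (by omega)
      (by omega) h5 h6
    rw [← hNe, hNn] at this
    exact this

end Pool.Agent.Ruzsa
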